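import Pool.Agent.H369.RE.Stm

/-!
# RE1: the coordinate ring of the Tate curve, dimensions (subtask of helper369, by helper94)
-/

set_option autoImplicit false

namespace Pool.Agent.H94.RE

open Pool.Agent.TH549.CK Pool.Agent.H369.TH Pool.Agent.H369.RE

variable {Γ K : Type} [AddCommGroup Γ] [LinearOrder Γ] [IsOrderedAddMonoid Γ] [Field K]

/-! ### the Taylor expansion as a Laurent series -/

theorem TL_mul (a : Pt Γ K) (f g : Ent Γ K) : TL a (f * g) = TL a f * TL a g := by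
  unfold TL
  rw [map_mul, PowerSeries.coe_mul]

theorem TL_add (a : Pt Γ K) (f g : Ent Γ K) : TL a (f + g) = TL a f + TL a g := by
  unfold TL
  rw [map_add, PowerSeries.coe_add]

theorem TL_pow (a : Pt Γ K) (f : Ent Γ K) (n : ℕ) : TL a (f ^ n) = TL a f ^ n := by
  unfold TL
  rw [map_pow, PowerSeries.coe_pow]

theorem TL_cst (a : Pt Γ K) (c : HG Γ K) : TL a (cst c) = HahnSeries.C c := by
  unfold TL
  rw [T_cst, PowerSeries.coe_C]

theorem TL_injective {a : Pt Γ K} (h : Function.Injective (T a)) {f g : Ent Γ K}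
    (hfg : TL a f = TL a g) : f = g := by
  apply h
  exact HahnSeries.ofPowerSeries_injective hfg

/-! ### Laurent series and orders -/

section order
variable {k : Type} [Field k]

/-- the inverse of a power series of order one -/
theorem unif_split {p : PowerSeries k} (h0 : PowerSeries.coeff 0 p = 0)
    (h1 : PowerSeries.coeff 1 p ≠ 0) :
    ∃ U V : PowerSeries k, p = PowerSeries.X * U ∧ U * V = 1 := by
  have hX : PowerSeries.X ∣ p := by
    rw [PowerSeries.X_dvd_iff]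
    rw [← PowerSeries.coeff_zero_eq_constantCoeff_apply]
    exact h0
  obtain ⟨U, hU⟩ := hX
  have hU1 : PowerSeries.coeff 0 U ≠ 0 := by
    intro h
    apply h1
    rw [hU, show (1 : ℕ) = 0 + 1 from rfl, PowerSeries.coeff_succ_X_mul, h]
  have hun : IsUnit U := by
    rw [PowerSeries.isUnit_iff_constantCoeff, isUnit_iff_ne_zero,
      ← PowerSeries.coeff_zero_eq_constantCoeff_apply]
    exact hU1
  obtain ⟨V, hV⟩ := hun.exists_right_inv
  exact ⟨U, V, hU, hV⟩

theorem coe_X_pow (n : ℕ) : (((PowerSeries.X : PowerSeries k) ^ n : PowerSeries k) : LaurentSeries k) =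
    HahnSeries.single (n : ℤ) (1 : k) := by
  rw [PowerSeries.coe_pow, RatFunc.single_one_eq_pow]
  congr 1
  exact PowerSeries.coe_X

/-- poles -/
theorem poles {p q : PowerSeries k} (h0 : PowerSeries.coeff 0 p = 0)
    (h1 : PowerSeries.coeff 1 p ≠ 0) {h : LaurentSeries k} {n : ℕ}
    (hh : h * (p : LaurentSeries k) ^ n = (q : LaurentSeries k)) (i : ℤ) (hi : i < -(n : ℤ)) :
    h.coeff i = 0 := by
  obtain ⟨U, V, hU, hUV⟩ := unif_split h0 h1
  have e1 : h * HahnSeries.single (n : ℤ) (1 : k) =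
      ((q * V ^ n : PowerSeries k) : LaurentSeries k) := by
    rw [PowerSeries.coe_mul, ← hh, ← PowerSeries.coe_pow, mul_assoc, ← PowerSeries.coe_mul, hU,
      mul_pow, mul_assoc, ← mul_pow, hUV, one_pow, mul_one, coe_X_pow]
  have e2 := HahnSeries.coeff_mul_single_add (r := (1 : k)) (x := h) (a := i) (b := (n : ℤ))
  rw [mul_one] at e2
  rw [← e2, e1, PowerSeries.coeff_coe, if_pos (by omega)]

/-- zeros -/
theorem zeros {p q : PowerSeries k} (h0 : PowerSeries.coeff 0 p = 0)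
    (h1 : PowerSeries.coeff 1 p ≠ 0) {h : LaurentSeries k} {n m : ℕ}
    (hh : h * (p : LaurentSeries k) ^ (n + m) = (q : LaurentSeries k))
    (hn : ∀ i : ℤ, i < -(n : ℤ) → h.coeff i = 0) (l : ℕ) (hl : l < m) :
    PowerSeries.coeff l q = 0 := by
  obtain ⟨U, V, hU, hUV⟩ := unif_split h0 h1
  let g : PowerSeries k := PowerSeries.mk fun i =>
    (h * HahnSeries.single (n : ℤ) (1 : k)).coeff (i : ℤ)
  have e1 : h * HahnSeries.single (n : ℤ) (1 : k) = ((g : PowerSeries k) : LaurentSeries k) := by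
    apply HahnSeries.ext
    funext i
    rw [PowerSeries.coeff_coe]
    by_cases hi : i < 0
    · rw [if_pos hi]
      have e2 := HahnSeries.coeff_mul_single_add (r := (1 : k)) (x := h) (a := i - n) (b := (n : ℤ))
      rw [mul_one, sub_add_cancel] at e2
      rw [e2]
      exact hn _ (by omega)
    · rw [if_neg hi, PowerSeries.coeff_mk, Int.natAbs_of_nonneg (by omega)]
  have e3 : q = PowerSeries.X ^ m * (g * U ^ (n + m)) := by
    apply HahnSeries.ofPowerSeries_injective (Γ := ℤ)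
    rw [← hh, PowerSeries.coe_mul, PowerSeries.coe_mul, ← e1, coe_X_pow, ← PowerSeries.coe_pow, hU,
      mul_pow, PowerSeries.coe_mul, coe_X_pow, Nat.cast_add]
    have e4 : (HahnSeries.single ((n : ℤ) + (m : ℤ)) (1 : k) : LaurentSeries k) =
        HahnSeries.single (n : ℤ) (1 : k) * HahnSeries.single (m : ℤ) (1 : k) := by
      rw [HahnSeries.single_mul_single, mul_one]
    rw [e4]
    ring
  have e5 : PowerSeries.X ^ m ∣ q := ⟨_, e3⟩
  exact PowerSeries.X_pow_dvd_iff.1 e5 l hl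

end order

/-! ### the facts on theta functions which are used -/

/-- the facts on theta functions -/
structure Facts (P : Γ) (o : Pt Γ K) : Prop where
  inj : Function.Injective (T o)
  th : theta P o ∈ Th P 1 (ng o)
  c0 : PowerSeries.coeff 0 (T o (theta P o)) = 0
  c1 : PowerSeries.coeff 1 (T o (theta P o)) ≠ 0
  one : (1 : Ent Γ K) ∈ Th P 0 1
  mul : ∀ (e e' : ℤ) (c c' : Pt Γ K) (f f' : Ent Γ K), f ∈ Th P e c → f' ∈ Th P e' c' →
    f * f' ∈ Th P (e + e') (c * c')
  dim : ∀ (e : ℕ) (c : Pt Γ K), 0 < e → Module.finrank (HG Γ K) (Th P e c) = e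
  div : ∀ (e : ℤ) (c : Pt Γ K) (f : Ent Γ K), f ∈ Th P e c → ∀ k : ℕ,
    (∀ l < k, PowerSeries.coeff l (T o f) = 0) →
    ∃ f' ∈ Th P (e - k) (c * ng o ^ (-(k : ℤ))), f = theta P o ^ k * f'

section facts
variable {P : Γ} {o : Pt Γ K} (H : Facts P o)
include H

theorem th_pow (n : ℕ) : theta P o ^ n ∈ Th P n (ng o ^ n) := by
  induction n with
  | zero => simpa using H.one
  | succ n ih =>
    have := H.mul _ _ _ _ _ _ ih H.th
    rw [pow_succ, pow_succ, Nat.cast_succ]
    exact this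

theorem TL_theta_ne : TL o (theta P o) ≠ 0 := by
  intro h
  apply H.c1
  have h2 : T o (theta P o) = 0 := by
    apply HahnSeries.ofPowerSeries_injective (Γ := ℤ)
    rw [map_zero]
    exact h
  rw [h2, map_zero]

theorem Fr_shift {n : ℕ} {f : Ent Γ K} {h : LaurentSeries (HG Γ K)} (hf : Fr P o n f h) (m : ℕ) :
    Fr P o (n + m) (f * theta P o ^ m) h := by
  refine ⟨?_, ?_⟩
  · rw [Nat.cast_add, pow_add]
    exact H.mul _ _ _ _ _ _ hf.1 (th_pow H m)
  · rw [TL_mul, TL_pow, ← hf.2, pow_add, mul_assoc]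

theorem Fr_add {n m : ℕ} {f g : Ent Γ K} {h h' : LaurentSeries (HG Γ K)} (hf : Fr P o n f h)
    (hg : Fr P o m g h') :
    Fr P o (n + m) (f * theta P o ^ m + g * theta P o ^ n) (h + h') := by
  have h1 := Fr_shift H hf m
  have h2 := Fr_shift H hg n
  rw [add_comm m n] at h2
  refine ⟨Submodule.add_mem _ h1.1 h2.1, ?_⟩
  rw [add_mul, h1.2, h2.2, TL_add]

theorem Fr_mul {n m : ℕ} {f g : Ent Γ K} {h h' : LaurentSeries (HG Γ K)} (hf : Fr P o n f h)
    (hg : Fr P o m g h') : Fr P o (n + m) (f * g) (h * h') := by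
  refine ⟨?_, ?_⟩
  · rw [Nat.cast_add, pow_add]
    exact H.mul _ _ _ _ _ _ hf.1 hg.1
  · rw [TL_mul, ← hf.2, ← hg.2, pow_add]
    ring

theorem Fr_const (c : HG Γ K) : Fr P o 0 (cst c) (algebraMap (HG Γ K) (LaurentSeries (HG Γ K)) c) := by
  refine ⟨?_, ?_⟩
  · have h1 : (cst c : Ent Γ K) = c • (1 : Ent Γ K) := by rw [smul_def', mul_one]
    rw [h1]
    refine Submodule.smul_mem _ c ?_
    simpa using H.one
  · rw [pow_zero, mul_one, TL_cst]
    exact LaurentSeries.algebraMap_apply _ c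

theorem exists_Fr (h : LaurentSeries (HG Γ K)) (hh : h ∈ R1 P o) : ∃ n f, Fr P o n f h := by
  unfold R1 at hh
  induction hh using Algebra.adjoin_induction with
  | mem x hx => exact hx
  | algebraMap r => exact ⟨0, _, Fr_const H r⟩
  | add x y _ _ hx hy =>
    obtain ⟨n, f, hf⟩ := hx
    obtain ⟨m, g, hg⟩ := hy
    exact ⟨_, _, Fr_add H hf hg⟩
  | mul x y _ _ hx hy =>
    obtain ⟨n, f, hf⟩ := hx
    obtain ⟨m, g, hg⟩ := hy
    exact ⟨_, _, Fr_mul H hf hg⟩

/-- the function `f / θ^n` -/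
noncomputable def quo (P : Γ) (o : Pt Γ K) (n : ℕ) (f : Ent Γ K) : LaurentSeries (HG Γ K) :=
  TL o f * (TL o (theta P o) ^ n)⁻¹

theorem Fr_quo {n : ℕ} {f : Ent Γ K} (hf : f ∈ Th P n (ng o ^ n)) : Fr P o n f (quo P o n f) := by
  refine ⟨hf, ?_⟩
  unfold quo
  rw [mul_assoc, inv_mul_cancel₀ (pow_ne_zero n (TL_theta_ne H)), mul_one]

theorem quo_mem {n : ℕ} {f : Ent Γ K} (hf : f ∈ Th P n (ng o ^ n)) : quo P o n f ∈ R1 P o :=
  Algebra.subset_adjoin ⟨n, f, Fr_quo H hf⟩

theorem Fr_eq_quo {n : ℕ} {f : Ent Γ K} {h : LaurentSeries (HG Γ K)} (hf : Fr P o n f h) :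
    h = quo P o n f := by
  have h1 := (Fr_quo H hf.1).2
  rw [← hf.2] at h1
  exact (mul_right_cancel₀ (pow_ne_zero n (TL_theta_ne H)) h1).symm

theorem Fr_poles {n : ℕ} {f : Ent Γ K} {h : LaurentSeries (HG Γ K)} (hf : Fr P o n f h) (i : ℤ)
    (hi : i < -(n : ℤ)) : h.coeff i = 0 := poles H.c0 H.c1 hf.2 i hi

theorem exists_of_poles {n : ℕ} {h : LaurentSeries (HG Γ K)} (hh : h ∈ R1 P o)
    (hp : ∀ i : ℤ, i < -(n : ℤ) → h.coeff i = 0) : ∃ f, Fr P o n f h := by
  obtain ⟨m, g, hg⟩ := exists_Fr H h hh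
  have h1 : Fr P o (n + m) (g * theta P o ^ n) h := by
    rw [add_comm]
    exact Fr_shift H hg n
  obtain ⟨f, hf, hgf⟩ := H.div _ _ _ h1.1 m (zeros H.c0 H.c1 h1.2 hp)
  refine ⟨f, ?_, ?_⟩
  · have e1 : (((n + m : ℕ) : ℤ) - (m : ℤ)) = (n : ℤ) := by push_cast; ring
    have e2 : ng o ^ (n + m) * ng o ^ (-(m : ℤ)) = ng o ^ n := by
      rw [pow_add, zpow_neg, zpow_natCast, mul_assoc, mul_inv_cancel, mul_one]
    rw [e1, e2] at hf
    exact hf
  · have h2 := h1.2
    rw [hgf, TL_mul, TL_pow, pow_add, ← mul_assoc, mul_comm (TL o (theta P o) ^ m)] at h2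
    exact mul_right_cancel₀ (pow_ne_zero m (TL_theta_ne H)) h2

omit H in
theorem quo_add (n : ℕ) (f g : Ent Γ K) :
    quo P o n (f + g) = quo P o n f + quo P o n g := by
  unfold quo
  rw [TL_add, add_mul]

omit H in
theorem quo_smul (c : HG Γ K) (n : ℕ) (f : Ent Γ K) :
    quo P o n (c • f) = HahnSeries.C c * quo P o n f := by
  unfold quo
  rw [smul_def', TL_mul, TL_cst, mul_assoc]

omit H in
theorem coe_smul' (c : HG Γ K) (y : R1 P o) :
    ((c • y : R1 P o) : LaurentSeries (HG Γ K)) = HahnSeries.C c * (y : LaurentSeries (HG Γ K)) := by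
  rw [Subalgebra.coe_smul, Algebra.smul_def, LaurentSeries.algebraMap_apply]

/-- the linear map `f ↦ f / θ^n` to the coordinate ring -/
noncomputable def quoR (n : ℕ) : Th P n (ng o ^ n) →ₗ[HG Γ K] R1 P o where
  toFun f := ⟨quo P o n f.1, quo_mem H f.2⟩
  map_add' f g := Subtype.ext (quo_add n f.1 g.1)
  map_smul' c f := Subtype.ext ((quo_smul c n f.1).trans
    (coe_smul' c ⟨quo P o n f.1, quo_mem H f.2⟩).symm)

/-- the linear map `f ↦ f / θ^n` -/
noncomputable def quoL (n : ℕ) : Th P n (ng o ^ n) →ₗ[HG Γ K] Lp (R1 P o) n :=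
  (quoR H n).codRestrict (Lp (R1 P o) n) fun f => fun i hi => Fr_poles H (Fr_quo H f.2) i hi

theorem quoL_val (n : ℕ) (f : Th P n (ng o ^ n)) :
    (((quoL H n f : Lp (R1 P o) n) : R1 P o) : LaurentSeries (HG Γ K)) = quo P o n f.1 := rfl

theorem quoL_bijective (n : ℕ) : Function.Bijective (quoL H n) := by
  constructor
  · intro f g hfg
    apply Subtype.ext
    have h1 : quo P o n f.1 = quo P o n g.1 := by
      rw [← quoL_val H n f, ← quoL_val H n g, hfg]
    apply TL_injective H.inj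
    rw [← (Fr_quo H f.2).2, ← (Fr_quo H g.2).2, h1]
  · intro h
    obtain ⟨f, hf⟩ := exists_of_poles H (n := n) (h : R1 P o).2 h.2
    refine ⟨⟨f, hf.1⟩, ?_⟩
    apply Subtype.ext
    apply Subtype.ext
    rw [quoL_val]
    exact (Fr_eq_quo H hf).symm

theorem finrank_Lp (n : ℕ) (hn : 0 < n) : Module.finrank (HG Γ K) (Lp (R1 P o) n) = n := by
  rw [← LinearEquiv.finrank_eq (LinearEquiv.ofBijective (quoL H n) (quoL_bijective H n))]
  exact H.dim n _ hn

end facts

theorem fr (h1 : S_rules) (h2 : S_T) (h3 : S_Th) (h4 : S_theta) (h5 : S_div) : S_fr := by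
  intro Γ K _ _ _ _ _ P hP o
  have H : Facts P o :=
    { inj := (h2 Γ K).1 o
      th := (h4 Γ K P hP o).1
      c0 := (h4 Γ K P hP o).2.2.1
      c1 := (h4 Γ K P hP o).2.2.2.1
      one := by
        have h := (h3 Γ K P hP).2.2.2.2.2.2.1 0
        have h' := (h1 Γ K).2.2.2.2.2.2.2.1
        rwa [h', zpow_zero] at h
      mul := (h3 Γ K P hP).2.2.2.1
      dim := (h3 Γ K P hP).2.2.2.2.1
      div := fun e c f hf k hk => h5 Γ K P hP e c o f hf k hk }
  refine ⟨exists_Fr H, ?_, ?_, finrank_Lp H⟩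
  · intro n f hf
    exact ⟨⟨quo P o n f, quo_mem H hf⟩, Fr_quo H hf⟩
  · intro n h
    constructor
    · intro hh
      exact exists_of_poles H h.2 hh
    · rintro ⟨f, hf⟩ i hi
      exact Fr_poles H hf i hi

end Pool.Agent.H94.RE
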